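import Pool.Agent.Helper22_LLG.Stmt

/-!
# LLG, module CLU
-/

set_option autoImplicit false

namespace Pool.Agent.LLG.H10

open SimpleGraph Pool.Agent.LAG

theorem exp_le_one_sub {x : ℝ} (h0 : 0 ≤ x) (h1 : x ≤ 1 / 2) :
    Real.exp (-(2 * x)) ≤ 1 - x := by
  have h2 := Real.add_one_le_exp (2 * x)
  have h3 : 1 ≤ (1 - x) * (2 * x + 1) := by nlinarith
  have h4 : 1 ≤ (1 - x) * Real.exp (2 * x) :=
    h3.trans (mul_le_mul_of_nonneg_left h2 (by linarith))
  rw [Real.exp_neg]
  have h5 := Real.exp_pos (2 * x)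
  rw [inv_eq_one_div, div_le_iff₀ h5]
  exact h4

/-- the thresholds -/
def thr (s : ℕ) (i : Fin (s + 1)) : ℕ := if i.val = s then 1 else 3

theorem thr_le (s : ℕ) (i : Fin (s + 1)) : thr s i ≤ 3 := by
  unfold thr; split_ifs <;> norm_num

theorem sum_thr (s : ℕ) : ∑ i : Fin (s + 1), (thr s i : ℝ) = 3 * s + 1 := by
  rw [Fin.sum_univ_castSucc]
  have h1 : ∀ i : Fin s, (thr s i.castSucc : ℝ) = 3 := by
    intro i
    unfold thr
    have := i.2
    rw [if_neg (by simp only [Fin.val_castSucc]; omega)]
    norm_num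
  have h2 : (thr s (Fin.last s) : ℝ) = 1 := by
    unfold thr
    rw [if_pos (by simp)]
    norm_num
  rw [h2, Finset.sum_congr rfl (fun i _ => h1 i), Finset.sum_const, Finset.card_univ,
    Fintype.card_fin, nsmul_eq_mul]
  ring

theorem card_ge_thr (k t : ℕ) :
    (k : ℝ) - t ≤ ((Finset.univ.filter (fun x : Fin k => t ≤ x.val)).card : ℝ) := by
  have h1 : (Finset.univ.filter (fun x : Fin k => ¬ t ≤ x.val)).card ≤ t := by
    have h2 : (Finset.univ.filter (fun x : Fin k => ¬ t ≤ x.val)).card ≤ (Finset.range t).card := by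
      apply Finset.card_le_card_of_injOn (fun x => x.val)
      · intro x hx
        simp only [Finset.coe_filter, Finset.mem_univ, true_and, Set.mem_ofPred_eq] at hx
        simp only [Finset.coe_range, Set.mem_Iio]
        omega
      · intro x _ y _ h
        exact Fin.ext h
    rwa [Finset.card_range] at h2
  have h3 := Finset.card_filter_add_card_filter_not (s := (Finset.univ : Finset (Fin k)))
    (fun x : Fin k => t ≤ x.val)
  rw [Finset.card_univ, Fintype.card_fin] at h3
  have h4 : ((Finset.univ.filter (fun x : Fin k => t ≤ x.val)).card : ℝ) +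
      ((Finset.univ.filter (fun x : Fin k => ¬ t ≤ x.val)).card : ℝ) = k := by exact_mod_cast h3
  have h5 : ((Finset.univ.filter (fun x : Fin k => ¬ t ≤ x.val)).card : ℝ) ≤ t := by
    exact_mod_cast h1
  linarith

/-- probability that all boundary edges are closed -/
theorem out_prob {E : Type} [Fintype E] [DecidableEq E] (Bd : Finset E) (k s : ℕ) (hk : 16 ≤ k) :
    Real.exp (-((6 * (s : ℝ) + 2) * Bd.card / k)) *
      (Fintype.card (Fin (s + 1) → E → Fin k) : ℝ) ≤
    ((Finset.univ.filter (fun b : Fin (s + 1) → E → Fin k =>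
      ∀ i, ∀ e ∈ Bd, thr s i ≤ (b i e).val)).card : ℝ) := by
  classical
  have hk0 : (0 : ℝ) < k := by
    have : (16 : ℝ) ≤ k := by exact_mod_cast hk
    linarith
  have hk16 : (16 : ℝ) ≤ k := by exact_mod_cast hk
  have h1 : (Finset.univ.filter (fun b : Fin (s + 1) → E → Fin k =>
      ∀ i, ∀ e ∈ Bd, thr s i ≤ (b i e).val)) =
      Fintype.piFinset (fun i => Fintype.piFinset (fun e =>
        if e ∈ Bd then Finset.univ.filter (fun x : Fin k => thr s i ≤ x.val) else Finset.univ)) := by
    ext b
    simp only [Finset.mem_filter, Finset.mem_univ, true_and, Fintype.mem_piFinset]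
    constructor
    · intro h i e
      by_cases he : e ∈ Bd
      · rw [if_pos he]
        simpa using h i e he
      · rw [if_neg he]
        exact Finset.mem_univ _
    · intro h i e he
      have := h i e
      rw [if_pos he] at this
      simpa using this
  rw [h1, Fintype.card_piFinset]
  push_cast
  have h2 : ∀ i : Fin (s + 1), Real.exp (-(2 * (thr s i : ℝ) * Bd.card / k)) *
      (k : ℝ) ^ (Fintype.card E) ≤ ((Fintype.piFinset (fun e =>
        if e ∈ Bd then Finset.univ.filter (fun x : Fin k => thr s i ≤ x.val)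
        else Finset.univ)).card : ℝ) := by
    intro i
    rw [Fintype.card_piFinset]
    push_cast
    have h3 : Real.exp (-(2 * (thr s i : ℝ) * Bd.card / k)) * (k : ℝ) ^ (Fintype.card E) =
        ∏ e : E, ((if e ∈ Bd then Real.exp (-(2 * ((thr s i : ℝ) / k))) else 1) * (k : ℝ)) := by
      rw [Finset.prod_mul_distrib, Finset.prod_const, Finset.card_univ, Finset.prod_ite_mem,
        Finset.univ_inter, Finset.prod_const, ← Real.exp_nat_mul]
      congr 2
      ring
    rw [h3]
    apply Finset.prod_le_prod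
    · intro e _
      split_ifs
      · positivity
      · positivity
    · intro e _
      by_cases he : e ∈ Bd
      · rw [if_pos he, if_pos he]
        have ht : (thr s i : ℝ) ≤ 3 := by exact_mod_cast thr_le s i
        have h4 : Real.exp (-(2 * ((thr s i : ℝ) / k))) ≤ 1 - (thr s i : ℝ) / k := by
          apply exp_le_one_sub
          · positivity
          · rw [div_le_iff₀ hk0]
            linarith
        calc Real.exp (-(2 * ((thr s i : ℝ) / k))) * (k : ℝ) ≤ (1 - (thr s i : ℝ) / k) * k :=
              mul_le_mul_of_nonneg_right h4 hk0.le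
          _ = (k : ℝ) - thr s i := by field_simp
          _ ≤ _ := card_ge_thr k (thr s i)
      · rw [if_neg he, if_neg he, one_mul, Finset.card_univ, Fintype.card_fin]
  calc Real.exp (-((6 * (s : ℝ) + 2) * Bd.card / k)) *
        (Fintype.card (Fin (s + 1) → E → Fin k) : ℝ)
      = ∏ i : Fin (s + 1), (Real.exp (-(2 * (thr s i : ℝ) * Bd.card / k)) *
        (k : ℝ) ^ (Fintype.card E)) := by
        rw [Finset.prod_mul_distrib, ← Real.exp_sum, Finset.prod_const, Finset.card_univ,
          Fintype.card_fun, Fintype.card_fun, Fintype.card_fin]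
        push_cast
        congr 2
        have h5 := sum_thr s
        have h6 : ∑ i : Fin (s + 1), -(2 * (thr s i : ℝ) * Bd.card / k) =
            -(2 * Bd.card / k) * ∑ i : Fin (s + 1), (thr s i : ℝ) := by
          rw [Finset.mul_sum]
          apply Finset.sum_congr rfl
          intro i _
          ring
        rw [h6, h5]
        ring
    _ ≤ _ := by
        apply Finset.prod_le_prod
        · intro i _
          positivity
        · intro i _
          exact h2 i

/-- gluing of functions -/
noncomputable def splt {A B : Type} (ι : A → B) (hι : Function.Injective ι) :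
    A ⊕ {b : B // b ∉ Set.range ι} ≃ B := by
  classical
  exact (Equiv.sumCongr (Equiv.ofInjective ι hι) (Equiv.refl _)).trans
    (Equiv.sumCompl (fun b => b ∈ Set.range ι))

theorem splt_inl {A B : Type} (ι : A → B) (hι : Function.Injective ι) (a : A) :
    (splt ι hι).symm (ι a) = Sum.inl a := by
  classical
  rw [Equiv.symm_apply_eq]
  simp [splt]

theorem splt_inr {A B : Type} (ι : A → B) (hι : Function.Injective ι)
    (b : {b : B // b ∉ Set.range ι}) : (splt ι hι).symm b.1 = Sum.inr b := by
  classical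
  rw [Equiv.symm_apply_eq]
  simp [splt]

/-- gluing of functions -/
noncomputable def glue {A B I α : Type} (ι : A → B) (hι : Function.Injective ι)
    (p : (I → A → α) × (I → {b : B // b ∉ Set.range ι} → α)) : I → B → α :=
  fun i b => Sum.elim (p.1 i) (p.2 i) ((splt ι hι).symm b)

theorem glue_inl {A B I α : Type} (ι : A → B) (hι : Function.Injective ι)
    (p : (I → A → α) × (I → {b : B // b ∉ Set.range ι} → α)) (i : I) (a : A) :
    glue ι hι p i (ι a) = p.1 i a := by
  unfold glue
  rw [splt_inl]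
  rfl

theorem glue_inr {A B I α : Type} (ι : A → B) (hι : Function.Injective ι)
    (p : (I → A → α) × (I → {b : B // b ∉ Set.range ι} → α)) (i : I)
    (b : {b : B // b ∉ Set.range ι}) : glue ι hι p i b.1 = p.2 i b := by
  unfold glue
  rw [splt_inr]
  rfl

theorem glue_inj {A B I α : Type} (ι : A → B) (hι : Function.Injective ι) :
    Function.Injective (glue (I := I) (α := α) ι hι) := by
  intro p q h
  apply Prod.ext
  · funext i a
    rw [← glue_inl ι hι p i a, h, glue_inl]
  · funext i b
    rw [← glue_inr ι hι p i b, h, glue_inr]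

theorem glue_card {A B I α : Type} [Fintype A] [Fintype B] [Fintype I] [Fintype α]
    [DecidableEq A] [DecidableEq B] [DecidableEq I]
    (ι : A → B) (hι : Function.Injective ι) [Fintype {b : B // b ∉ Set.range ι}] :
    Fintype.card (I → B → α) =
      Fintype.card (I → A → α) * Fintype.card (I → {b : B // b ∉ Set.range ι} → α) := by
  have h1 := Fintype.card_congr (splt ι hι)
  rw [Fintype.card_sum] at h1
  simp only [Fintype.card_fun]
  rw [← mul_pow, ← pow_add, h1]

theorem bd_eq {W : Type} [Fintype W] [DecidableEq W] (Γ : SimpleGraph W) (U : Finset W) :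
    bd Γ (U : Set W) = ∑ x ∈ U, {w | w ∉ U ∧ Γ.Adj x w}.ncard := by
  classical
  unfold bd
  have h1 : {e : W × W | e.1 ∈ (U : Set W) ∧ e.2 ∉ (U : Set W) ∧ Γ.Adj e.1 e.2} =
      ((Finset.univ.filter (fun e : W × W => e.1 ∈ U ∧ e.2 ∉ U ∧ Γ.Adj e.1 e.2) :
        Finset (W × W)) : Set (W × W)) := by
    ext e; simp
  rw [h1, Set.ncard_coe_finset, Finset.card_filter, Fintype.sum_prod_type]
  rw [← Finset.sum_subset (Finset.subset_univ U)]
  · apply Finset.sum_congr rfl
    intro x hx
    have h2 : {w | w ∉ U ∧ Γ.Adj x w} =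
        ((Finset.univ.filter (fun w : W => w ∉ U ∧ Γ.Adj x w) : Finset W) : Set W) := by
      ext w; simp
    rw [h2, Set.ncard_coe_finset, Finset.card_filter]
    apply Finset.sum_congr rfl
    intro y _
    simp only [hx, true_and]
  · intro x _ hx
    apply Finset.sum_eq_zero
    intro y _
    rw [if_neg]
    intro h
    exact hx h.1

theorem mis_le {W : Type} [Fintype W] [DecidableEq W] (Γ : SimpleGraph W) (U : Finset W) (k : ℕ)
    (hreg : ∀ v, (Γ.neighborSet v).ncard = k) [Fintype ((U : Set W) : Type)] :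
    mis (Γ.induce (U : Set W)) k ≤ bd Γ (U : Set W) := by
  classical
  rw [bd_eq]
  unfold mis
  have h1 : ∀ x : (U : Set W), k - ((Γ.induce (U : Set W)).neighborSet x).ncard ≤
      {w | w ∉ U ∧ Γ.Adj x.1 w}.ncard := by
    intro x
    have h2 : Γ.neighborSet x.1 ⊆
        (Subtype.val '' ((Γ.induce (U : Set W)).neighborSet x)) ∪ {w | w ∉ U ∧ Γ.Adj x.1 w} := by
      intro w hw
      by_cases hwU : w ∈ U
      · left
        exact ⟨⟨w, hwU⟩, hw, rfl⟩
      · right
        exact ⟨hwU, hw⟩
    have h3 := Set.ncard_le_ncard h2 (Set.toFinite _)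
    have h4 := Set.ncard_union_le (Subtype.val '' ((Γ.induce (U : Set W)).neighborSet x))
      {w | w ∉ U ∧ Γ.Adj x.1 w}
    have h5 := Set.ncard_image_of_injective ((Γ.induce (U : Set W)).neighborSet x)
      Subtype.val_injective
    have h6 := hreg x.1
    omega
  refine (Finset.sum_le_sum fun x _ => h1 x).trans (le_of_eq ?_)
  exact (Finset.sum_subtype (p := fun x => x ∈ (U : Set W)) U (fun x => Finset.mem_coe.symm)
    (fun x => {w | w ∉ U ∧ Γ.Adj x w}.ncard)).symm

theorem sparse_induce {W : Type} (Γ : SimpleGraph W) (U : Set W) (k m : ℕ) (h : Sparse Γ k m) :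
    Sparse (Γ.induce U) k m := by
  intro K hK
  have h1 : (Subtype.val '' K : Set W).ncard = K.ncard :=
    Set.ncard_image_of_injective K Subtype.val_injective
  have h2 := h (Subtype.val '' K) (by rw [h1]; exact hK)
  rw [h1] at h2
  refine le_trans (Nat.mul_le_mul_left 4 (le_of_eq ?_)) h2
  unfold ins
  have h3 : {e : W × W | e.1 ∈ (Subtype.val '' K : Set W) ∧ e.2 ∈ (Subtype.val '' K : Set W) ∧
      Γ.Adj e.1 e.2} = (fun e : U × U => (e.1.1, e.2.1)) ''
        {e : U × U | e.1 ∈ K ∧ e.2 ∈ K ∧ (Γ.induce U).Adj e.1 e.2} := by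
    ext e
    constructor
    · rintro ⟨⟨a, ha, ha'⟩, ⟨b, hb, hb'⟩, hab⟩
      refine ⟨(a, b), ⟨ha, hb, ?_⟩, Prod.ext ha' hb'⟩
      change Γ.Adj a.1 b.1
      rw [ha', hb']
      exact hab
    · rintro ⟨⟨a, b⟩, ⟨ha, hb, hab⟩, rfl⟩
      exact ⟨⟨a, ha, rfl⟩, ⟨b, hb, rfl⟩, hab⟩
  rw [h3, Set.ncard_image_of_injective]
  intro a b hab
  simp only [Prod.mk.injEq] at hab
  exact Prod.ext (Subtype.ext hab.1) (Subtype.ext hab.2)

theorem av_ind {Ω : Type} [Fintype Ω] (p : Ω → Prop) [DecidablePred p] :
    av (fun ω : Ω => Set.indicator {ω | p ω} (fun _ => (1 : ℝ)) ω) =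
      ((Finset.univ.filter p).card : ℝ) / (Fintype.card Ω : ℝ) := by
  unfold av
  congr 1
  rw [Finset.card_filter]
  push_cast
  apply Finset.sum_congr rfl
  intro ω _
  simp [Set.indicator_apply]

theorem clu (hspr : SprStmt) : CluStmt := by
  classical
  intro W _ _ Γ k s m hk hm hreg hsp U hU
  set X : Type := ((U : Set W) : Type) with hX
  set ι : Sym2 X → Sym2 W := Sym2.map Subtype.val with hι
  have hinj : Function.Injective ι := Sym2.map.injective Subtype.val_injective
  set C : Type := {e : Sym2 W // e ∉ Set.range ι} with hC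
  set Bd : Finset C := Finset.univ.filter
    (fun e : C => ∃ a b, a ∈ U ∧ b ∉ U ∧ Γ.Adj a b ∧ e.1 = s(a, b)) with hBd
  have hk0 : (0 : ℝ) < k := by
    have : (16 : ℝ) ≤ k := by exact_mod_cast hk
    linarith
  -- the inner part
  have hin := hspr X (Γ.induce (U : Set W)) k s m hk hm (fun v => by
    have h1 := Set.ncard_image_of_injective ((Γ.induce (U : Set W)).neighborSet v)
      Subtype.val_injective
    rw [← h1, ← hreg v.1]
    apply Set.ncard_le_ncard _ (Set.toFinite _)
    rintro w ⟨x, hx, rfl⟩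
    exact hx) (sparse_induce Γ _ k m hsp) hU
  rw [av_ind] at hin
  rw [av_ind]
  have hout := out_prob Bd k s hk
  set NI := Finset.univ.filter (fun ω : Fin (s + 1) → Sym2 X → Fin k =>
    (prc (Γ.induce (U : Set W)) s ω).Connected) with hNI
  set NO := Finset.univ.filter (fun b : Fin (s + 1) → C → Fin k =>
      ∀ i, ∀ e ∈ Bd, thr s i ≤ (b i e).val) with hNO
  set NT := Finset.univ.filter (fun ω : Fin (s + 1) → Sym2 W → Fin k =>
    ∀ v ∈ U, {w | (prc Γ s ω).Reachable v w} = (U : Set W)) with hNT
  have hcard : NI.card * NO.card ≤ NT.card := by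
    rw [← Finset.card_product]
    apply Finset.card_le_card_of_injOn (glue ι hinj)
    · rintro ⟨a, b⟩ hab
      rw [Finset.mem_coe, Finset.mem_product] at hab
      obtain ⟨ha, hb⟩ := hab
      rw [hNI, Finset.mem_filter] at ha
      rw [hNO, Finset.mem_filter] at hb
      simp only at ha hb
      rw [Finset.mem_coe, hNT, Finset.mem_filter]
      refine ⟨Finset.mem_univ _, ?_⟩
      set ω := glue ι hinj (a, b) with hω
      -- no edge leaves U
      have hno : ∀ x y, x ∈ U → (prc Γ s ω).Adj x y → y ∈ U := by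
        intro x y hx hxy
        by_contra hy
        obtain ⟨hΓ, i, hi⟩ := hxy
        have hr : s(x, y) ∉ Set.range ι := by
          rintro ⟨e, he⟩
          induction e with
          | _ p q =>
            have he' : s(p.1, q.1) = s(x, y) := he
            have hpq := Sym2.eq_iff.mp he'
            rcases hpq with ⟨_, h2⟩ | ⟨h1, _⟩
            · exact hy (by rw [← h2]; exact q.2)
            · exact hy (by rw [← h1]; exact p.2)
        have h5 := hb.2 i ⟨s(x, y), hr⟩ (by
          rw [hBd, Finset.mem_filter]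
          exact ⟨Finset.mem_univ _, x, y, hx, hy, hΓ, rfl⟩)
        have h6 : ω i s(x, y) = b i ⟨s(x, y), hr⟩ := glue_inr ι hinj (a, b) i ⟨s(x, y), hr⟩
        rw [h6] at hi
        have h7 : (b i ⟨s(x, y), hr⟩).val < thr s i := hi
        omega
      have hstay : ∀ (x y : W) (p : (prc Γ s ω).Walk x y), x ∈ U → y ∈ U := by
        intro x y p
        induction p with
        | nil => exact fun h => h
        | cons h p ih => exact fun hx => ih (hno _ _ hx h)
      -- inside
      have hhom : ∀ x y : X, (prc (Γ.induce (U : Set W)) s a).Adj x y →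
          (prc Γ s ω).Adj x.1 y.1 := by
        rintro x y ⟨h1, i, hi⟩
        refine ⟨h1, i, ?_⟩
        have h2 : ω i (ι s(x, y)) = a i s(x, y) := glue_inl ι hinj (a, b) i s(x, y)
        have h3 : ι s(x, y) = s(x.1, y.1) := rfl
        rw [h3] at h2
        rw [h2]
        exact hi
      let f : (prc (Γ.induce (U : Set W)) s a) →g (prc Γ s ω) :=
        ⟨Subtype.val, fun {x y} h => hhom x y h⟩
      intro v hv
      ext w
      constructor
      · rintro ⟨p⟩
        exact hstay v w p hv
      · intro hw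
        exact (ha.2.preconnected ⟨v, hv⟩ ⟨w, hw⟩).map f
    · intro p _ q _ h
      exact glue_inj ι hinj h
  have hΩ : Fintype.card (Fin (s + 1) → Sym2 W → Fin k) =
      Fintype.card (Fin (s + 1) → Sym2 X → Fin k) * Fintype.card (Fin (s + 1) → C → Fin k) :=
    glue_card ι hinj
  have hBdc : Bd.card ≤ bd Γ (U : Set W) := by
    have h1 : bd Γ (U : Set W) = (Finset.univ.filter
        (fun e : W × W => e.1 ∈ U ∧ e.2 ∉ U ∧ Γ.Adj e.1 e.2)).card := by
      unfold bd
      rw [← Set.ncard_coe_finset]
      congr 1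
      ext e; simp
    rw [h1]
    have h2 : (Bd.image Subtype.val) ⊆ (Finset.univ.filter
        (fun e : W × W => e.1 ∈ U ∧ e.2 ∉ U ∧ Γ.Adj e.1 e.2)).image (fun e => s(e.1, e.2)) := by
      intro e he
      rw [Finset.mem_image] at he
      obtain ⟨c, hc, rfl⟩ := he
      rw [hBd, Finset.mem_filter] at hc
      obtain ⟨_, x, y, hx, hy, hxy, hc⟩ := hc
      rw [Finset.mem_image]
      exact ⟨(x, y), by simp [hx, hy, hxy], hc.symm⟩
    calc Bd.card = (Bd.image Subtype.val).card :=
          (Finset.card_image_of_injective _ Subtype.val_injective).symm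
      _ ≤ _ := Finset.card_le_card h2
      _ ≤ _ := Finset.card_image_le
  have hmis := mis_le Γ U k hreg
  have hXc : (Fintype.card X : ℝ) = U.card := by
    have : Fintype.card X = U.card := Fintype.card_coe U
    rw [this]
  -- numbers
  have p1 : (0 : ℝ) < (Fintype.card (Fin (s + 1) → Sym2 X → Fin k) : ℝ) := by
    have : Nonempty (Fin (s + 1) → Sym2 X → Fin k) := ⟨fun _ _ => ⟨0, by omega⟩⟩
    exact_mod_cast Fintype.card_pos
  have p2 : (0 : ℝ) < (Fintype.card (Fin (s + 1) → C → Fin k) : ℝ) := by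
    have : Nonempty (Fin (s + 1) → C → Fin k) := ⟨fun _ _ => ⟨0, by omega⟩⟩
    exact_mod_cast Fintype.card_pos
  have hlog : 0 ≤ Real.log k := Real.log_nonneg (by
    have : (16 : ℝ) ≤ k := by exact_mod_cast hk
    linarith)
  have hB' : (Bd.card : ℝ) ≤ bd Γ (U : Set W) := by exact_mod_cast hBdc
  have hm' : (mis (Γ.induce (U : Set W)) k : ℝ) ≤ bd Γ (U : Set W) := by exact_mod_cast hmis
  rw [le_div_iff₀ p1] at hin
  rw [hΩ]
  push_cast
  rw [le_div_iff₀ (mul_pos p1 p2)]
  have hexp : Real.exp (-(cw k s m U.card (bd Γ (U : Set W)))) ≤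
      Real.exp (-(Real.log k * ((5 / 8 : ℝ) ^ s * (Fintype.card X : ℝ) +
      4 / 3 * ((Fintype.card X : ℝ) / m + 4 * (mis (Γ.induce (U : Set W)) k : ℝ) / k)))) *
      Real.exp (-((6 * (s : ℝ) + 2) * Bd.card / k)) := by
    rw [← Real.exp_add, Real.exp_le_exp, hXc]
    unfold cw
    have g1 : (6 * (s : ℝ) + 2) * Bd.card / k ≤ (6 * (s : ℝ) + 2) * bd Γ (U : Set W) / k := by
      apply div_le_div_of_nonneg_right _ hk0.le
      exact mul_le_mul_of_nonneg_left hB' (by positivity)
    have g2 : Real.log k * ((5 / 8 : ℝ) ^ s * (U.card : ℝ) +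
        4 / 3 * ((U.card : ℝ) / m + 4 * (mis (Γ.induce (U : Set W)) k : ℝ) / k)) ≤
        Real.log k * ((5 / 8 : ℝ) ^ s * (U.card : ℝ) +
        4 / 3 * ((U.card : ℝ) / m + 4 * (bd Γ (U : Set W) : ℝ) / k)) := by
      apply mul_le_mul_of_nonneg_left _ hlog
      have g3 : 4 * (mis (Γ.induce (U : Set W)) k : ℝ) / k ≤ 4 * (bd Γ (U : Set W) : ℝ) / k := by
        apply div_le_div_of_nonneg_right _ hk0.le
        linarith
      linarith
    linarith
  calc Real.exp (-(cw k s m U.card (bd Γ (U : Set W)))) *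
        ((Fintype.card (Fin (s + 1) → Sym2 X → Fin k) : ℝ) *
          (Fintype.card (Fin (s + 1) → C → Fin k) : ℝ))
      ≤ (Real.exp (-(Real.log k * ((5 / 8 : ℝ) ^ s * (Fintype.card X : ℝ) +
      4 / 3 * ((Fintype.card X : ℝ) / m + 4 * (mis (Γ.induce (U : Set W)) k : ℝ) / k)))) *
      Real.exp (-((6 * (s : ℝ) + 2) * Bd.card / k))) *
        ((Fintype.card (Fin (s + 1) → Sym2 X → Fin k) : ℝ) *
          (Fintype.card (Fin (s + 1) → C → Fin k) : ℝ)) :=
        mul_le_mul_of_nonneg_right hexp (by positivity)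
    _ = (Real.exp (-(Real.log k * ((5 / 8 : ℝ) ^ s * (Fintype.card X : ℝ) +
      4 / 3 * ((Fintype.card X : ℝ) / m + 4 * (mis (Γ.induce (U : Set W)) k : ℝ) / k)))) *
        (Fintype.card (Fin (s + 1) → Sym2 X → Fin k) : ℝ)) *
      (Real.exp (-((6 * (s : ℝ) + 2) * Bd.card / k)) *
          (Fintype.card (Fin (s + 1) → C → Fin k) : ℝ)) := by ring
    _ ≤ (NI.card : ℝ) * (NO.card : ℝ) := by
        apply mul_le_mul hin hout (by positivity) (by positivity)
    _ ≤ (NT.card : ℝ) := by exact_mod_cast hcard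

end Pool.Agent.LLG.H10
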