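import Pool.Agent.Helper22_LLG.Stmt

/-!
# LLG, module EVS
-/

set_option autoImplicit false

namespace Pool.Agent.LLG.H10

open SimpleGraph Pool.Agent.LAG

section arcs

variable {V : Type} (O : V → V → Prop)

theorem arc_eq (u v : V) : arc O u v = (u, v) ∨ arc O u v = (v, u) := by
  classical
  unfold arc
  split_ifs
  · exact Or.inl rfl
  · exact Or.inr rfl

theorem arc_sym {u v u' v' : V} (h : arc O u v = arc O u' v') :
    (u = u' ∧ v = v') ∨ (u = v' ∧ v = u') := by
  rcases arc_eq O u v with h1 | h1 <;> rcases arc_eq O u' v' with h2 | h2 <;>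
    rw [h1, h2, Prod.mk.injEq] at h <;> tauto

theorem arc_mem {R : SimpleGraph V} (hO : ∀ x y, R.Adj x y ↔ O x y ∨ O y x) {u v : V}
    (h : R.Adj u v) : O (arc O u v).1 (arc O u v).2 := by
  classical
  unfold arc
  split_ifs with h1
  · exact h1
  · rcases (hO u v).mp h with h2 | h2
    · exact absurd h2 h1
    · exact h2

theorem arcs_mem {R : SimpleGraph V} (hO : ∀ x y, R.Adj x y ↔ O x y ∨ O y x) {z : ℕ → V} {n : ℕ}
    (h : ∀ t, t < n → R.Adj (z t) (z (t + 1))) : ∀ e ∈ arcs O z n, O e.1 e.2 := by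
  classical
  intro e he
  unfold arcs at he
  rw [Finset.mem_image] at he
  obtain ⟨t, ht, rfl⟩ := he
  exact arc_mem O hO (h t (Finset.mem_range.mp ht))

theorem arcs_card_P {R : SimpleGraph V} {z : ℕ → V} {n : ℕ} (h : IsP R z n) :
    (arcs O z n).card = n := by
  classical
  unfold arcs
  rw [Finset.card_image_of_injOn, Finset.card_range]
  intro s hs t ht hst
  simp only [Finset.coe_range, Set.mem_Iio] at hs ht
  rcases arc_sym O hst with ⟨h1, _⟩ | ⟨h1, h2⟩
  · exact h.2 s t (by omega) (by omega) h1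
  · have e1 := h.2 s (t + 1) (by omega) (by omega) h1
    have e2 := h.2 (s + 1) t (by omega) (by omega) h2
    omega

theorem arcs_card_C {R : SimpleGraph V} {z : ℕ → V} {m : ℕ} (h : IsC R z m) :
    (arcs O z m).card = m := by
  classical
  unfold arcs
  obtain ⟨h3, hadj, hm, hinj⟩ := h
  rw [Finset.card_image_of_injOn, Finset.card_range]
  intro s hs t ht hst
  simp only [Finset.coe_range, Set.mem_Iio] at hs ht
  rcases arc_sym O hst with ⟨h1, _⟩ | ⟨h1, h2⟩
  · exact hinj s t hs ht h1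
  · exfalso
    rcases Nat.lt_or_ge (t + 1) m with ht1 | ht1
    · have e1 := hinj s (t + 1) hs ht1 h1
      rcases Nat.lt_or_ge (s + 1) m with hs1 | hs1
      · have e2 := hinj (s + 1) t hs1 ht h2
        omega
      · have e3 : s + 1 = m := by omega
        rw [e3, hm] at h2
        have e4 := hinj 0 t (by omega) ht h2
        omega
    · have e3 : t + 1 = m := by omega
      rw [e3, hm] at h1
      have e4 := hinj s 0 hs (by omega) h1
      rw [e4] at h2
      have e5 := hinj 1 t (by omega) ht h2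
      omega

theorem cnt_union [Fintype V] {m : ℕ} (S : (Fin (m + 1) → V) → Prop) (nn : ℕ) (e : V × V) (B : ℝ)
    (hB : ∀ p < nn, ∀ u v : V,
      (Nat.card {z : Fin (m + 1) → V // S z ∧ cyc z p = u ∧ cyc z (p + 1) = v} : ℝ) ≤ B) :
    (Nat.card {z : Fin (m + 1) → V // S z ∧ e ∈ arcs O (cyc z) nn} : ℝ) ≤ 2 * nn * B := by
  classical
  have h1 : Nat.card {z : Fin (m + 1) → V // S z ∧ e ∈ arcs O (cyc z) nn} =
      (Finset.univ.filter (fun z : Fin (m + 1) → V => S z ∧ e ∈ arcs O (cyc z) nn)).card := by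
    rw [Nat.card_eq_fintype_card, Fintype.card_subtype]
  have h2 : ∀ (p : ℕ) (b : Bool), Nat.card {z : Fin (m + 1) → V // S z ∧
        cyc z p = (if b then e.1 else e.2) ∧ cyc z (p + 1) = (if b then e.2 else e.1)} =
      (Finset.univ.filter (fun z : Fin (m + 1) → V => S z ∧
        cyc z p = (if b then e.1 else e.2) ∧ cyc z (p + 1) = (if b then e.2 else e.1))).card := by
    intro p b
    rw [Nat.card_eq_fintype_card, Fintype.card_subtype]
  have h3 : (Finset.univ.filter (fun z : Fin (m + 1) → V => S z ∧ e ∈ arcs O (cyc z) nn)) ⊆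
      (Finset.range nn ×ˢ (Finset.univ : Finset Bool)).biUnion (fun pb =>
        Finset.univ.filter (fun z : Fin (m + 1) → V => S z ∧
          cyc z pb.1 = (if pb.2 then e.1 else e.2) ∧
          cyc z (pb.1 + 1) = (if pb.2 then e.2 else e.1))) := by
    intro z hz
    rw [Finset.mem_filter] at hz
    obtain ⟨_, hS, he⟩ := hz
    unfold arcs at he
    rw [Finset.mem_image] at he
    obtain ⟨t, ht, rfl⟩ := he
    rw [Finset.mem_biUnion]
    rcases arc_eq O (cyc z t) (cyc z (t + 1)) with h4 | h4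
    · refine ⟨(t, true), Finset.mem_product.mpr ⟨ht, Finset.mem_univ _⟩, ?_⟩
      rw [Finset.mem_filter]
      refine ⟨Finset.mem_univ _, hS, ?_, ?_⟩
      · rw [h4]; rfl
      · rw [h4]; rfl
    · refine ⟨(t, false), Finset.mem_product.mpr ⟨ht, Finset.mem_univ _⟩, ?_⟩
      rw [Finset.mem_filter]
      refine ⟨Finset.mem_univ _, hS, ?_, ?_⟩
      · rw [h4]; rfl
      · rw [h4]; rfl
  have h4 := (Finset.card_le_card h3).trans Finset.card_biUnion_le
  rw [h1]
  calc ((Finset.univ.filter (fun z : Fin (m + 1) → V => S z ∧ e ∈ arcs O (cyc z) nn)).card : ℝ)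
      ≤ ((∑ pb ∈ Finset.range nn ×ˢ (Finset.univ : Finset Bool),
        (Finset.univ.filter (fun z : Fin (m + 1) → V => S z ∧
          cyc z pb.1 = (if pb.2 then e.1 else e.2) ∧
          cyc z (pb.1 + 1) = (if pb.2 then e.2 else e.1))).card : ℕ) : ℝ) := by
        exact_mod_cast h4
    _ = ∑ pb ∈ Finset.range nn ×ˢ (Finset.univ : Finset Bool),
        ((Finset.univ.filter (fun z : Fin (m + 1) → V => S z ∧
          cyc z pb.1 = (if pb.2 then e.1 else e.2) ∧
          cyc z (pb.1 + 1) = (if pb.2 then e.2 else e.1))).card : ℝ) := by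
        push_cast; rfl
    _ ≤ ∑ _pb ∈ Finset.range nn ×ˢ (Finset.univ : Finset Bool), B := by
        apply Finset.sum_le_sum
        rintro ⟨p, b⟩ hpb
        rw [Finset.mem_product] at hpb
        have h5 := hB p (Finset.mem_range.mp hpb.1) (if b then e.1 else e.2)
          (if b then e.2 else e.1)
        rw [h2 p b] at h5
        exact h5
    _ = 2 * nn * B := by
        rw [Finset.sum_const, Finset.card_product, Finset.card_range, Finset.card_univ,
          Fintype.card_bool, nsmul_eq_mul]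
        push_cast
        ring

end arcs

theorem Big.mono' {V : Type} {G : SimpleGraph V} {g g' : ℕ} (h : Big G g) (hg : g' ≤ g) :
    Big G g' := fun v c hc => lt_of_le_of_lt hg (h v c hc)

theorem evs (hh : HcntStmt) (hc : CyccStmt) : EvsStmt := by
  classical
  intro V _ A R O Q k T q h N n η hE hRA hdeg hbig hO hOa hball
  obtain ⟨hk, hT, hTk, hqk, h200, hn2, hN3, e1, e2⟩ := hE
  have hk0 : (0 : ℝ) < k := by exact_mod_cast hk
  have hT0 : (0 : ℝ) < T := by exact_mod_cast hT
  have hTk' : (T : ℝ) ≤ k := by exact_mod_cast hTk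
  refine ⟨?_, ?_⟩
  · rintro (⟨⟨l, z⟩, hz⟩ | ⟨z, hz⟩)
    · refine ⟨arcs_mem O hO hz.2.1, ?_, ?_⟩
      · change (arcs O (cyc z) (l.1 + 1)).card ≤ _
        rw [arcs_card_C O hz]
        exact le_max_of_le_left l.2
      · change 2 ≤ (arcs O (cyc z) (l.1 + 1)).card
        rw [arcs_card_C O hz]
        have h3 : 3 ≤ l.1 + 1 := hz.1
        change 2 ≤ l.1 + 1
        omega
    · refine ⟨arcs_mem O hO hz.1.1, ?_, ?_⟩
      · change (arcs O (cyc z) n).card ≤ _
        rw [arcs_card_P O hz.1]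
        exact le_max_right _ _
      · change 2 ≤ (arcs O (cyc z) n).card
        rw [arcs_card_P O hz.1]
        exact hn2
  · intro e J' hJ'
    have hsplit : ∑ j ∈ J', ((1 : ℝ) / T) ^ ((evA A R O Q N n j).card - 1) =
        (∑ j ∈ J'.toLeft, ((1 : ℝ) / T) ^ ((evA A R O Q N n (Sum.inl j)).card - 1)) +
        ∑ j ∈ J'.toRight, ((1 : ℝ) / T) ^ ((evA A R O Q N n (Sum.inr j)).card - 1) := by
      conv_lhs => rw [← Finset.toLeft_disjSum_toRight (u := J')]
      rw [Finset.sum_disjSum]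
    rw [hsplit]
    have hleft : ∑ j ∈ J'.toLeft, ((1 : ℝ) / T) ^ ((evA A R O Q N n (Sum.inl j)).card - 1) ≤
        η / 2 := by
      refine le_trans ?_ e1
      have hr1 : (1 : ℝ) ≤ 2 * k / T := by
        rw [le_div_iff₀ hT0]; linarith
      have s1 : ∑ j ∈ J'.toLeft, ((1 : ℝ) / T) ^ ((evA A R O Q N n (Sum.inl j)).card - 1) =
          ∑ j ∈ J'.toLeft, ((1 : ℝ) / T) ^ (j.1.1.1) := by
        apply Finset.sum_congr rfl
        rintro ⟨⟨l, z⟩, hz⟩ _
        change ((1 : ℝ) / T) ^ ((arcs O (cyc z) (l.1 + 1)).card - 1) = _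
        rw [arcs_card_C O hz]
        rfl
      rw [s1, ← Finset.sum_fiberwise J'.toLeft (fun j => j.1.1)]
      have s2 : ∀ l : Fin N, ∑ j ∈ J'.toLeft.filter (fun j => j.1.1 = l),
          ((1 : ℝ) / T) ^ (j.1.1.1) ≤ 2 * N * ((2 * k : ℝ) / T) ^ N * ((2 * k : ℝ) ^ h)⁻¹ := by
        intro l
        have s3 : ∑ j ∈ J'.toLeft.filter (fun j => j.1.1 = l), ((1 : ℝ) / T) ^ (j.1.1.1) =
            ((J'.toLeft.filter (fun j => j.1.1 = l)).card : ℝ) * ((1 : ℝ) / T) ^ l.1 := by
          rw [← nsmul_eq_mul, ← Finset.sum_const]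
          apply Finset.sum_congr rfl
          intro j hj
          rw [(Finset.mem_filter.mp hj).2]
        have s4 : (J'.toLeft.filter (fun j => j.1.1 = l)).card ≤
            Nat.card {w : Fin (l.1 + 1) → V // IsC R (cyc w) (l.1 + 1) ∧
              e ∈ arcs O (cyc w) (l.1 + 1)} := by
          rw [Nat.card_eq_fintype_card, ← Finset.card_univ]
          refine le_trans (Finset.card_le_card (t := (Finset.univ : Finset {w : Fin (l.1 + 1) → V //
            IsC R (cyc w) (l.1 + 1) ∧ e ∈ arcs O (cyc w) (l.1 + 1)}).image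
            (fun w => (⟨⟨l, w.1⟩, w.2.1⟩ : {z : (l : Fin N) × (Fin (l.1 + 1) → V) //
              IsC R (cyc z.2) (z.1.1 + 1)}))) ?_) Finset.card_image_le
          rintro ⟨⟨l', w⟩, hw⟩ hj
          rw [Finset.mem_filter] at hj
          obtain ⟨hj1, hj2⟩ := hj
          simp only at hj2
          subst hj2
          rw [Finset.mem_image]
          have h5 := hJ' (Sum.inl ⟨⟨l', w⟩, hw⟩) (Finset.mem_toLeft.mp hj1)
          exact ⟨⟨w, hw, h5⟩, Finset.mem_univ _, rfl⟩
        have s5 : (Nat.card {w : Fin (l.1 + 1) → V // IsC R (cyc w) (l.1 + 1) ∧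
              e ∈ arcs O (cyc w) (l.1 + 1)} : ℝ) ≤
            2 * ((l.1 + 1 : ℕ) : ℝ) * ((2 * k : ℝ) ^ l.1 * ((2 * k : ℝ) ^ h)⁻¹) := by
          apply cnt_union
          intro p hp u v
          have h6 := hc V A R k h l.1 p u v hk hRA hdeg hbig (by omega)
          have h7 : (2 * k : ℝ) ^ h * (Nat.card {z : Fin (l.1 + 1) → V //
              IsC R (cyc z) (l.1 + 1) ∧ cyc z p = u ∧ cyc z (p + 1) = v} : ℝ) ≤
              (2 * k : ℝ) ^ l.1 := by exact_mod_cast h6
          have h8 : (0 : ℝ) < (2 * k : ℝ) ^ h := by positivity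
          rw [← div_eq_mul_inv, le_div_iff₀ h8, mul_comm]
          exact h7
        rw [s3]
        have h9 : ((J'.toLeft.filter (fun j => j.1.1 = l)).card : ℝ) ≤
            2 * ((l.1 + 1 : ℕ) : ℝ) * ((2 * k : ℝ) ^ l.1 * ((2 * k : ℝ) ^ h)⁻¹) :=
          le_trans (by exact_mod_cast s4) s5
        have h10 : (0 : ℝ) ≤ ((1 : ℝ) / T) ^ l.1 := by positivity
        have h11 : (0 : ℝ) ≤ ((2 * k : ℝ) ^ h)⁻¹ := by positivity
        have h12 : ((l.1 + 1 : ℕ) : ℝ) ≤ N := by exact_mod_cast l.2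
        have h13 : ((2 * k : ℝ) / T) ^ l.1 ≤ ((2 * k : ℝ) / T) ^ N :=
          pow_le_pow_right₀ hr1 (le_of_lt l.2)
        calc ((J'.toLeft.filter (fun j => j.1.1 = l)).card : ℝ) * ((1 : ℝ) / T) ^ l.1
            ≤ (2 * ((l.1 + 1 : ℕ) : ℝ) * ((2 * k : ℝ) ^ l.1 * ((2 * k : ℝ) ^ h)⁻¹)) *
              ((1 : ℝ) / T) ^ l.1 := mul_le_mul_of_nonneg_right h9 h10
          _ = 2 * ((l.1 + 1 : ℕ) : ℝ) * ((2 * k : ℝ) / T) ^ l.1 * ((2 * k : ℝ) ^ h)⁻¹ := by
              rw [div_pow, div_pow, one_pow]; ring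
          _ ≤ 2 * N * ((2 * k : ℝ) / T) ^ N * ((2 * k : ℝ) ^ h)⁻¹ := by
              apply mul_le_mul_of_nonneg_right _ h11
              apply mul_le_mul _ h13 (by positivity) (by positivity)
              linarith
      refine (Finset.sum_le_sum fun l _ => s2 l).trans (le_of_eq ?_)
      rw [Finset.sum_const, Finset.card_univ, Fintype.card_fin, nsmul_eq_mul]
      ring
    have hright : ∑ j ∈ J'.toRight, ((1 : ℝ) / T) ^ ((evA A R O Q N n (Sum.inr j)).card - 1) ≤
        η / 2 := by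
      refine le_trans ?_ e2
      have s1 : ∑ j ∈ J'.toRight, ((1 : ℝ) / T) ^ ((evA A R O Q N n (Sum.inr j)).card - 1) =
          (J'.toRight.card : ℝ) * ((1 : ℝ) / T) ^ (n - 1) := by
        rw [← nsmul_eq_mul, ← Finset.sum_const]
        apply Finset.sum_congr rfl
        rintro ⟨z, hz⟩ _
        change ((1 : ℝ) / T) ^ ((arcs O (cyc z) n).card - 1) = _
        rw [arcs_card_P O hz.1]
      have s4 : J'.toRight.card ≤
          Nat.card {w : Fin (n + 1) → V // (IsP R (cyc w) n ∧ Heavy A Q (cyc w) n) ∧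
            e ∈ arcs O (cyc w) n} := by
        rw [Nat.card_eq_fintype_card, ← Finset.card_univ]
        refine le_trans (Finset.card_le_card (t := (Finset.univ : Finset {w : Fin (n + 1) → V //
          (IsP R (cyc w) n ∧ Heavy A Q (cyc w) n) ∧ e ∈ arcs O (cyc w) n}).image
          (fun w => (⟨w.1, w.2.1⟩ : {z : Fin (n + 1) → V //
            IsP R (cyc z) n ∧ Heavy A Q (cyc z) n}))) ?_) Finset.card_image_le
        rintro ⟨w, hw⟩ hj
        rw [Finset.mem_image]
        have h5 := hJ' (Sum.inr ⟨w, hw⟩) (Finset.mem_toRight.mp hj)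
        exact ⟨⟨w, hw, h5⟩, Finset.mem_univ _, rfl⟩
      have s5 : (Nat.card {w : Fin (n + 1) → V // (IsP R (cyc w) n ∧ Heavy A Q (cyc w) n) ∧
            e ∈ arcs O (cyc w) n} : ℝ) ≤
          2 * (n : ℝ) * (2 ^ n * (2 * (k : ℝ)) ^ n * ((q : ℝ) / (2 * k)) ^ (n / 4000)) := by
        apply cnt_union
        intro p hp u v
        have h6 := hh V A R Q k q n p u v hk hqk hRA hdeg (Big.mono' hbig (by omega)) hball hp
        refine le_trans (le_of_eq ?_) h6
        congr 1
        apply Nat.card_congr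
        exact Equiv.subtypeEquivRight (fun z => and_assoc)
      rw [s1]
      have h9 : (J'.toRight.card : ℝ) ≤
          2 * (n : ℝ) * (2 ^ n * (2 * (k : ℝ)) ^ n * ((q : ℝ) / (2 * k)) ^ (n / 4000)) :=
        le_trans (by exact_mod_cast s4) s5
      have h10 : (0 : ℝ) ≤ ((1 : ℝ) / T) ^ (n - 1) := by positivity
      have h11 : ((1 : ℝ) / T) ^ (n - 1) = T * ((1 : ℝ) / T) ^ n := by
        obtain ⟨n', rfl⟩ : ∃ n', n = n' + 1 := ⟨n - 1, by omega⟩
        rw [Nat.add_sub_cancel, pow_succ]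
        field_simp
      calc (J'.toRight.card : ℝ) * ((1 : ℝ) / T) ^ (n - 1)
          ≤ (2 * (n : ℝ) * (2 ^ n * (2 * (k : ℝ)) ^ n * ((q : ℝ) / (2 * k)) ^ (n / 4000))) *
            ((1 : ℝ) / T) ^ (n - 1) := mul_le_mul_of_nonneg_right h9 h10
        _ = 2 * (n : ℝ) * T * ((4 * k : ℝ) / T) ^ n * ((q : ℝ) / (2 * k)) ^ (n / 4000) := by
            rw [h11]
            have h12 : ((4 * k : ℝ) / T) ^ n = 2 ^ n * (2 * (k : ℝ)) ^ n * ((1 : ℝ) / T) ^ n := by
              rw [← mul_pow, ← mul_pow]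
              congr 1
              ring
            rw [h12]
            ring
    linarith

end Pool.Agent.LLG.H10
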