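import Pool.Agent.Helper22_LLG.Stmt
import Pool.Agent.Helper59_LAG.Par

/-!
# LLG, module NUMI
-/

set_option autoImplicit false

namespace Pool.Agent.LLG.H10

open Pool.Agent.LAG

theorem numi_main (q h T l L B a : ℕ) (hq : 2 ≤ q) (hh : 2 ^ 273 * q ^ 122 ≤ 3 ^ h)
    (hB : B ≤ q ^ 21) (hT : T = 2 ^ 45 * q ^ 24) (hl : l = 2 ^ 12 * q) (hL : L = 2 ^ 36 * q ^ 23)
    (ha0 : a = 2 ^ 43 * q ^ 24) : NumI B a h l T L := by
  obtain ⟨h1, h2, h3, h4, -, h6⟩ := ParH59.main q h T l L hq hh hT hl hL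
  have hT1 : 100 ≤ T := by
    rw [hT]
    calc 100 ≤ 2 ^ 45 * 1 := by norm_num
      _ ≤ _ := Nat.mul_le_mul_left _ (Nat.one_le_pow _ _ (by omega))
  have hl1 : 100 ≤ l := by
    rw [hl]
    calc 100 ≤ 2 ^ 12 * 1 := by norm_num
      _ ≤ _ := Nat.mul_le_mul_left _ (by omega)
  have hKK : KK T l ≤ 2 ^ 61 * q ^ 25 := by
    refine le_trans (ParH59.kk _ _ hT1 hl1) (le_of_eq ?_)
    rw [hT, hl]
    ring
  refine ⟨h1, h2, h3, ?_, ?_, h6⟩
  · exact le_trans (Nat.mul_le_mul_left _ hB) h4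
  · have ha : L * (128 * q) ≤ a := by
      rw [ha0, hL]
      exact le_of_eq (by ring)
    have hd := ParH59.decay L (128 * q) _ (by omega) ha
    refine le_trans (Nat.mul_le_mul_right _ ?_) hd
    have hqq : q ≤ 2 ^ (q - 1) := by
      have := Nat.lt_two_pow_self (n := q - 1)
      omega
    have e4 : T * (2 ^ 61 * q ^ 25) = 2 ^ 106 * q ^ 49 := by rw [hT]; ring
    calc 96 * KK T l * T
        ≤ 96 * (2 ^ 61 * q ^ 25) * T :=
          Nat.mul_le_mul_right _ (Nat.mul_le_mul_left _ hKK)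
      _ = 96 * (T * (2 ^ 61 * q ^ 25)) := by ring
      _ = 96 * 2 ^ 106 * q ^ 49 := by rw [e4]; ring
      _ ≤ 2 ^ 113 * q ^ 49 := Nat.mul_le_mul_right _ (by norm_num)
      _ ≤ 2 ^ 113 * (2 ^ (q - 1)) ^ 49 := Nat.mul_le_mul_left _ (Nat.pow_le_pow_left hqq _)
      _ = 2 ^ (113 + (q - 1) * 49) := by rw [← pow_mul, ← pow_add]
      _ ≤ 2 ^ (128 * q) := Nat.pow_le_pow_right (by norm_num) (by omega)

theorem numi : NumiStmt := fun D h B hh hB =>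
  numi_main (D + 2) h _ _ _ B _ (by omega) hh hB rfl rfl rfl rfl

end Pool.Agent.LLG.H10
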